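import Pool.Agent.H42.Cube

namespace Pool.Agent.Results.MP_c1dc0e_lc.Full

open Cardinal

universe u

theorem result (κ : Cardinal.{u}) (hκ : ℵ₀ ≤ κ) :
    ∃ c : (Order.succ κ).ord.ToType × (Order.succ κ).ord.ToType × (Order.succ κ).ord.ToType → Fin 2,
      ∀ H I J : Set (Order.succ κ).ord.ToType, κ ≤ #H → κ ≤ #I → κ ≤ #J → ∀ i : Fin 2,
        ∃ x ∈ H, ∃ y ∈ I, ∃ z ∈ J, c (x, y, z) = i := by
  obtain ⟨c, hc⟩ := Pool.Agent.H42.Cube.cube hκ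
  refine ⟨fun p => if c p.1 p.2.1 p.2.2 then 1 else 0, fun H I J hH hI hJ i => ?_⟩
  obtain ⟨x, hx, y, hy, z, hz, h⟩ := hc H I J hH hI hJ (decide (i = 1))
  refine ⟨x, hx, y, hy, z, hz, ?_⟩
  simp only [h]
  fin_cases i <;> simp

end Pool.Agent.Results.MP_c1dc0e_lc.Full
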